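import Pool.Agent.Helper7.PX.Goals2

/-!
# Packet ZF: the supports of the limit distributions of the normalised gaps, from ZA
-/

set_option autoImplicit false

open Finset Filter Topology

open scoped Classical

namespace Pool.Agent.Helper62.PX

open Pool.Agent.Helper7.PX (pc StmtZA StmtZF)

/-- The next prime after `p` is at most any prime `r > p`. -/
theorem next_prime {p r : ℕ} (hp : p.Prime) (hr : r.Prime) (h : p < r) :
    ∃ s : ℕ, Nat.nth Nat.Prime s = p ∧ Nat.nth Nat.Prime (s + 1) ≤ r := by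
  refine ⟨Nat.count Nat.Prime p, Nat.nth_count hp, ?_⟩
  have h1 : Nat.count Nat.Prime p < Nat.count Nat.Prime r := Nat.count_strict_mono hp h
  calc Nat.nth Nat.Prime (Nat.count Nat.Prime p + 1)
      ≤ Nat.nth Nat.Prime (Nat.count Nat.Prime r) := Nat.nth_monotone Nat.infinite_setOfPred_prime h1
    _ = r := Nat.nth_count hr

/-- The spacing of the blocks is inherited by all pairs. -/
theorem spaced {K0 : ℕ} {h : ℕ → ℕ} {w : ℝ} (hw : 0 ≤ w)
    (hs : ∀ i < K0, (h i : ℝ) + w ≤ h (i + 1)) (i : ℕ) :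
    ∀ j : ℕ, i < j → j ≤ K0 → (h i : ℝ) + w ≤ h j := by
  intro j hij
  induction j, hij using Nat.le_induction with
  | base => intro hj; exact hs i (by omega)
  | succ m hm ih =>
    intro hj
    have h1 := ih (by omega)
    have h2 := hs m (by omega)
    linarith

/-- Two non-empty blocks give two consecutive primes in different blocks. -/
theorem blk {n K0 : ℕ} {h : ℕ → ℕ} {w W : ℝ} (hw : 0 ≤ w)
    (hs : ∀ i < K0, (h i : ℝ) + w ≤ h (i + 1)) (hW : (h K0 : ℝ) + w ≤ W)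
    (hP : ∀ q : ℕ, q.Prime → n < q → (q : ℝ) ≤ n + W →
      ∃ i ≤ K0, n + h i < q ∧ (q : ℝ) ≤ n + h i + w)
    {a b : ℕ} (hab : a < b) (hb : b ≤ K0)
    (ha1 : ∃ p : ℕ, p.Prime ∧ n + h a < p ∧ (p : ℝ) ≤ n + h a + w)
    (hb1 : ∃ p : ℕ, p.Prime ∧ n + h b < p ∧ (p : ℝ) ≤ n + h b + w) :
    ∃ j s : ℕ, a < j ∧ j ≤ K0 ∧ n + h a < Nat.nth Nat.Prime s ∧
      (Nat.nth Nat.Prime s : ℝ) ≤ n + h a + w ∧ n + h j < Nat.nth Nat.Prime (s + 1) ∧
      (Nat.nth Nat.Prime (s + 1) : ℝ) ≤ n + h j + w := by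
  have hsp := spaced hw hs
  set F : Finset ℕ := (Finset.Ioc (n + h a) ⌊(n : ℝ) + h a + w⌋₊).filter Nat.Prime with hF
  have hmem : ∀ p : ℕ, p ∈ F ↔ p.Prime ∧ n + h a < p ∧ (p : ℝ) ≤ n + h a + w := by
    intro p
    rw [hF, Finset.mem_filter, Finset.mem_Ioc, Nat.le_floor_iff (by positivity)]
    tauto
  obtain ⟨p0, hp0⟩ := ha1
  obtain ⟨p, hpF, hpmax⟩ := Finset.exists_max_image F id ⟨p0, (hmem p0).2 hp0⟩
  obtain ⟨hp, hp1, hp2⟩ := (hmem p).1 hpF
  obtain ⟨r, hr, hr1, hr2⟩ := hb1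
  have hpr : p < r := by
    have h1 := hsp a b hab hb
    have h2 : ((n + h b : ℕ) : ℝ) < r := by exact_mod_cast hr1
    push_cast at h2
    have h3 : (p : ℝ) < r := by linarith
    exact_mod_cast h3
  obtain ⟨s, hs1, hs2⟩ := next_prime hp hr hpr
  set q := Nat.nth Nat.Prime (s + 1) with hq
  have hqp : q.Prime := Nat.prime_nth_prime _
  have hpq : p < q := by
    rw [← hs1, hq]
    exact Nat.nth_strictMono Nat.infinite_setOfPred_prime (Nat.lt_succ_self s)
  have hbK : (h b : ℝ) ≤ h K0 := by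
    rcases Nat.lt_or_ge b K0 with h1 | h1
    · have := hsp b K0 h1 le_rfl
      linarith
    · have : b = K0 := le_antisymm hb h1
      rw [this]
  have hqW : (q : ℝ) ≤ n + W := by
    have h1 : (q : ℝ) ≤ r := by exact_mod_cast hs2
    linarith
  obtain ⟨j, hj, hj1, hj2⟩ := hP q hqp (by omega) hqW
  refine ⟨j, s, ?_, hj, by rw [hs1]; exact hp1, by rw [hs1]; exact hp2, hj1, hj2⟩
  by_contra hcon
  rcases Nat.lt_or_ge j a with h1 | h1
  · have h2 := hsp j a h1 (by omega)
    have h3 : ((n + h a : ℕ) : ℝ) < p := by exact_mod_cast hp1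
    push_cast at h3
    have h4 : (p : ℝ) < q := by exact_mod_cast hpq
    linarith
  · have hja : j = a := by omega
    subst hja
    have h5 := hpmax q ((hmem q).2 ⟨hqp, hj1, hj2⟩)
    simp only [id] at h5
    omega

/-- The counting step. -/
theorem count_step {S : Finset ℕ} {K0 M : ℕ} {T : ℕ → ℕ → Finset ℕ} {y : ℝ}
    (hS : ∀ n ∈ S, ∃ i j s : ℕ, i < j ∧ j ≤ K0 ∧ s ∈ T i j ∧ n < Nat.nth Nat.Prime s ∧
      Nat.nth Nat.Prime s ≤ n + M)
    (hT : ∀ i j : ℕ, i < j → j ≤ K0 → ((T i j).card : ℝ) ≤ y) (hy : 0 ≤ y) :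
    (S.card : ℝ) ≤ ((K0 : ℝ) + 1) ^ 2 * (M * y) := by
  set P : Finset (ℕ × ℕ) := ((Finset.range (K0 + 1)) ×ˢ (Finset.range (K0 + 1))).filter
    (fun ij => ij.1 < ij.2) with hP
  have hcov : S ⊆ P.biUnion (fun ij => (T ij.1 ij.2).biUnion
      (fun s => Finset.Ico (Nat.nth Nat.Prime s - M) (Nat.nth Nat.Prime s))) := by
    intro n hn
    obtain ⟨i, j, s, h1, h2, h3, h4, h5⟩ := hS n hn
    rw [Finset.mem_biUnion]
    refine ⟨(i, j), ?_, ?_⟩
    · rw [hP, Finset.mem_filter, Finset.mem_product, Finset.mem_range, Finset.mem_range]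
      exact ⟨⟨by simp only; omega, by simp only; omega⟩, h1⟩
    · rw [Finset.mem_biUnion]
      exact ⟨s, h3, by rw [Finset.mem_Ico]; omega⟩
  have h1 : S.card ≤ ∑ ij ∈ P, ∑ s ∈ T ij.1 ij.2, M := by
    refine (Finset.card_le_card hcov).trans ((Finset.card_biUnion_le).trans ?_)
    refine Finset.sum_le_sum (fun ij _ => (Finset.card_biUnion_le).trans ?_)
    refine Finset.sum_le_sum (fun s _ => ?_)
    rw [Nat.card_Ico]
    omega
  have h2 : (S.card : ℝ) ≤ ∑ ij ∈ P, ((T ij.1 ij.2).card : ℝ) * M := by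
    have : ((S.card : ℕ) : ℝ) ≤ ((∑ ij ∈ P, ∑ s ∈ T ij.1 ij.2, M : ℕ) : ℝ) := by exact_mod_cast h1
    refine this.trans (le_of_eq ?_)
    push_cast
    refine Finset.sum_congr rfl (fun ij _ => ?_)
    rw [Finset.sum_const, nsmul_eq_mul]
  have h3 : ∑ ij ∈ P, ((T ij.1 ij.2).card : ℝ) * M ≤ ∑ ij ∈ P, (M * y : ℝ) := by
    refine Finset.sum_le_sum (fun ij hij => ?_)
    rw [hP, Finset.mem_filter, Finset.mem_product, Finset.mem_range, Finset.mem_range] at hij
    have := hT ij.1 ij.2 hij.2 (by omega)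
    have hM : (0 : ℝ) ≤ M := Nat.cast_nonneg M
    nlinarith
  have h4 : ∑ ij ∈ P, (M * y : ℝ) = (P.card : ℝ) * (M * y) := by
    rw [Finset.sum_const, nsmul_eq_mul]
  have h5 : (P.card : ℝ) ≤ ((K0 : ℝ) + 1) ^ 2 := by
    have : P.card ≤ (K0 + 1) * (K0 + 1) := by
      refine (Finset.card_filter_le _ _).trans (le_of_eq ?_)
      rw [Finset.card_product, Finset.card_range]
    have h6 : ((P.card : ℕ) : ℝ) ≤ (((K0 + 1) * (K0 + 1) : ℕ) : ℝ) := by exact_mod_cast this
    push_cast at h6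
    nlinarith
  have h7 : 0 ≤ (M * y : ℝ) := mul_nonneg (Nat.cast_nonneg M) hy
  calc (S.card : ℝ) ≤ (P.card : ℝ) * (M * y) := by rw [← h4]; exact h2.trans h3
    _ ≤ ((K0 : ℝ) + 1) ^ 2 * (M * y) := mul_le_mul_of_nonneg_right h5 h7

/-- The comparison of the exponentials. -/
theorem exp_step (A0 C0 B D : ℝ) (hB : 0 ≤ B) (hD : 0 ≤ D) :
    D * B * Real.exp (-((|A0| + D) * Real.exp ((2 * |C0| + 1) * B)))
      < Real.exp (-(A0 * Real.exp (C0 * (2 * B)))) := by
  have h1 : A0 * Real.exp (C0 * (2 * B)) ≤ |A0| * Real.exp ((2 * |C0| + 1) * B) := by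
    have h2 : Real.exp (C0 * (2 * B)) ≤ Real.exp ((2 * |C0| + 1) * B) := by
      apply Real.exp_le_exp.mpr
      nlinarith [le_abs_self C0]
    calc A0 * Real.exp (C0 * (2 * B)) ≤ |A0| * Real.exp (C0 * (2 * B)) :=
          mul_le_mul_of_nonneg_right (le_abs_self _) (Real.exp_pos _).le
      _ ≤ _ := mul_le_mul_of_nonneg_left h2 (abs_nonneg _)
  have h3 : B ≤ Real.exp ((2 * |C0| + 1) * B) := by
    have h4 : (2 * |C0| + 1) * B + 1 ≤ Real.exp ((2 * |C0| + 1) * B) := Real.add_one_le_exp _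
    nlinarith [mul_nonneg (abs_nonneg C0) hB]
  have h5 : D * B < Real.exp (D * Real.exp ((2 * |C0| + 1) * B)) := by
    have h6 := Real.add_one_le_exp (D * Real.exp ((2 * |C0| + 1) * B))
    have h7 : D * B ≤ D * Real.exp ((2 * |C0| + 1) * B) := mul_le_mul_of_nonneg_left h3 hD
    linarith
  have h8 : -((|A0| + D) * Real.exp ((2 * |C0| + 1) * B))
      ≤ -(A0 * Real.exp (C0 * (2 * B))) - D * Real.exp ((2 * |C0| + 1) * B) := by
    nlinarith
  calc D * B * Real.exp (-((|A0| + D) * Real.exp ((2 * |C0| + 1) * B)))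
      ≤ D * B * Real.exp (-(A0 * Real.exp (C0 * (2 * B))) - D * Real.exp ((2 * |C0| + 1) * B)) :=
        mul_le_mul_of_nonneg_left (Real.exp_le_exp.mpr h8) (mul_nonneg hD hB)
    _ = D * B * (Real.exp (-(A0 * Real.exp (C0 * (2 * B))))
          / Real.exp (D * Real.exp ((2 * |C0| + 1) * B))) := by rw [Real.exp_sub]
    _ < Real.exp (D * Real.exp ((2 * |C0| + 1) * B)) * (Real.exp (-(A0 * Real.exp (C0 * (2 * B))))
          / Real.exp (D * Real.exp ((2 * |C0| + 1) * B))) :=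
        mul_lt_mul_of_pos_right h5 (div_pos (Real.exp_pos _) (Real.exp_pos _))
    _ = Real.exp (-(A0 * Real.exp (C0 * (2 * B)))) := by
        field_simp

/-- The facts on large `x`. -/
theorem large (X0 c0 e1 : ℝ) (hc0 : 0 < c0) (he1 : 0 < e1) : ∃ X : ℝ, ∀ x : ℝ, X ≤ x →
    X0 ≤ x / 2 ∧ 4 ≤ x ∧ 4 ≤ Real.log x ∧ Real.log (Real.log x) ≤ 2 * Real.log (Real.log (x / 2)) ∧
    1 ≤ e1 * Real.log (x / 2) ∧ c0 * Real.log (Real.log x) ≤ e1 * Real.log x ∧
    c0 * Real.log (Real.log x) * Real.log x ≤ x := by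
  have t1 : Tendsto Real.log atTop atTop := Real.tendsto_log_atTop
  have e1' : ∀ᶠ x : ℝ in atTop, X0 ≤ x / 2 :=
    (tendsto_id.atTop_div_const (by norm_num : (0 : ℝ) < 2)).eventually_ge_atTop X0
  have e2 : ∀ᶠ x : ℝ in atTop, 4 ≤ x := eventually_ge_atTop 4
  have e3 : ∀ᶠ x : ℝ in atTop, 4 ≤ Real.log x := t1.eventually_ge_atTop 4
  have e4 : ∀ᶠ x : ℝ in atTop, 1 / e1 + 1 ≤ Real.log x := t1.eventually_ge_atTop _
  have e5 : ∀ᶠ u : ℝ in atTop, c0 * Real.log u ≤ e1 * u := by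
    have h := Real.isLittleO_log_id_atTop.def (show 0 < e1 / c0 from div_pos he1 hc0)
    filter_upwards [h, eventually_ge_atTop (1 : ℝ)] with u hu hu1
    simp only [id, Real.norm_eq_abs] at hu
    have h1 : Real.log u ≤ e1 / c0 * u := by
      rw [abs_of_nonneg (by linarith : (0 : ℝ) ≤ u)] at hu
      exact (le_abs_self _).trans hu
    calc c0 * Real.log u ≤ c0 * (e1 / c0 * u) := mul_le_mul_of_nonneg_left h1 hc0.le
      _ = e1 * u := by field_simp
  have e5' : ∀ᶠ x : ℝ in atTop, c0 * Real.log (Real.log x) ≤ e1 * Real.log x := t1.eventually e5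
  have e6 : ∀ᶠ x : ℝ in atTop, c0 * Real.log x ^ 2 ≤ x := by
    have h := (Real.isLittleO_pow_log_id_atTop (n := 2)).def (show 0 < 1 / c0 from one_div_pos.mpr hc0)
    filter_upwards [h, eventually_ge_atTop (1 : ℝ)] with x hx hx1
    simp only [id, Real.norm_eq_abs] at hx
    rw [abs_of_nonneg (by linarith : (0 : ℝ) ≤ x), abs_of_nonneg (sq_nonneg _)] at hx
    calc c0 * Real.log x ^ 2 ≤ c0 * (1 / c0 * x) := mul_le_mul_of_nonneg_left hx hc0.le
      _ = x := by field_simp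
  obtain ⟨X, hX⟩ := eventually_atTop.mp
    (e1'.and (e2.and (e3.and (e4.and (e5'.and e6)))))
  refine ⟨X, fun x hx => ?_⟩
  obtain ⟨h1, h2, h3, h4, h5, h6⟩ := hX x hx
  have hl2 : Real.log (x / 2) = Real.log x - Real.log 2 := by
    rw [Real.log_div (by linarith) (by norm_num)]
  have hlog2 : Real.log 2 ≤ 1 := by
    have := Real.log_two_lt_d9
    linarith
  have hlog2' : 0 ≤ Real.log 2 := Real.log_nonneg (by norm_num)
  refine ⟨h1, h2, h3, ?_, ?_, h5, ?_⟩
  · have h7 : 0 < Real.log (x / 2) := by rw [hl2]; linarith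
    have h8 : Real.log x ≤ Real.log (x / 2) ^ 2 := by
      rw [hl2]
      nlinarith
    calc Real.log (Real.log x) ≤ Real.log (Real.log (x / 2) ^ 2) :=
          Real.log_le_log (by linarith) h8
      _ = 2 * Real.log (Real.log (x / 2)) := by
          rw [Real.log_pow]; norm_num
  · rw [hl2]
    have h9 : 1 / e1 ≤ Real.log x - Real.log 2 := by linarith
    calc (1 : ℝ) = e1 * (1 / e1) := by field_simp
      _ ≤ _ := mul_le_mul_of_nonneg_left h9 he1.le
  · have h10 : Real.log (Real.log x) ≤ Real.log x := Real.log_le_self (by linarith)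
    calc c0 * Real.log (Real.log x) * Real.log x ≤ c0 * Real.log x * Real.log x := by
          apply mul_le_mul_of_nonneg_right _ (by linarith)
          exact mul_le_mul_of_nonneg_left h10 hc0.le
      _ = c0 * Real.log x ^ 2 := by ring
      _ ≤ x := h6

/-- ZF from ZA. -/
theorem zf : StmtZA → StmtZF := by
  rintro ⟨c0, C0, hc0, hZA⟩
  set K0 : ℕ := ⌈2 / c0⌉₊ with hK0
  have hK0c : 2 ≤ c0 * K0 := by
    have h1 : 2 / c0 ≤ (K0 : ℝ) := Nat.le_ceil _
    calc (2 : ℝ) = c0 * (2 / c0) := by field_simp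
      _ ≤ c0 * K0 := mul_le_mul_of_nonneg_left h1 hc0.le
  have hK0p : 1 ≤ K0 := by
    rw [hK0]
    exact Nat.one_le_ceil_iff.mpr (by positivity)
  refine ⟨K0, c0 / 4, 2 * |C0| + 1, by positivity, fun ε hε => ?_⟩
  set e1 : ℝ := min ε 1 / 4 with he1
  have he1p : 0 < e1 := by
    have : 0 < min ε 1 := lt_min hε one_pos
    positivity
  have he1l : e1 ≤ 1 := by
    have : min ε 1 ≤ 1 := min_le_right _ _
    rw [he1]
    linarith
  have he1e : 4 * e1 ≤ ε := by
    have : min ε 1 ≤ ε := min_le_left _ _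
    rw [he1]
    linarith
  obtain ⟨A0, X0, hA0⟩ := hZA 1 (K0 + 1) e1 he1p he1l
  set D : ℝ := 4 * ((K0 : ℝ) + 1) ^ 2 with hD
  have hDp : 0 < D := by positivity
  obtain ⟨X, hX⟩ := large X0 c0 e1 hc0 he1p
  refine ⟨|A0| + D, X, fun x hx β hβ0 hβs hβc => ?_⟩
  obtain ⟨hx1, hx4, hlx, hll, hel, hcl, hcx⟩ := hX x hx
  set l : ℝ := Real.log x with hl
  set l' : ℝ := Real.log (x / 2) with hl'
  have hll' : l' = l - Real.log 2 := by
    rw [hl', hl, Real.log_div (by linarith) (by norm_num)]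
  have hlog2 : Real.log 2 ≤ 1 := by
    have := Real.log_two_lt_d9
    linarith
  have hlog2' : 0 ≤ Real.log 2 := Real.log_nonneg (by norm_num)
  have hl'p : 0 < l' := by linarith
  have hl'l : l' ≤ l := by linarith
  set B : ℝ := β K0 with hB
  -- monotonicity of `β`
  have hβm : ∀ i j : ℕ, i < j → j ≤ K0 → β i + ε ≤ β j := by
    intro i j hij
    induction j, hij using Nat.le_induction with
    | base => intro hj; exact hβs i (by omega)
    | succ m hm ih =>
      intro hj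
      have h1 := ih (by omega)
      have h2 := hβs m (by omega)
      linarith
  have hβp : ∀ i ≤ K0, 0 ≤ β i := by
    intro i hi
    rcases Nat.eq_zero_or_pos i with h0 | h0
    · rw [h0]; exact hβ0
    · have := hβm 0 i h0 hi
      linarith
  have hβB : ∀ i ≤ K0, β i ≤ B := by
    intro i hi
    rcases Nat.lt_or_ge i K0 with h0 | h0
    · have := hβm i K0 h0 le_rfl
      linarith
    · have : i = K0 := le_antisymm hi h0
      rw [this]
  have hBε : ε ≤ B := by
    have := hβm 0 K0 hK0p le_rfl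
    linarith
  have hBp : 0 < B := lt_of_lt_of_le hε hBε
  -- the blocks
  set h : ℕ → ℕ := fun i => ⌈β i * l'⌉₊ with hh
  have hlo : ∀ i, β i * l' ≤ h i := fun i => Nat.le_ceil _
  have hup : ∀ i ≤ K0, (h i : ℝ) ≤ β i * l' + 1 := fun i hi =>
    (Nat.ceil_lt_add_one (mul_nonneg (hβp i hi) hl'p.le)).le
  set w : ℝ := e1 * l' with hw
  have hwp : 0 < w := mul_pos he1p hl'p
  have hεl : 4 * w ≤ ε * l' := by
    rw [hw]
    nlinarith
  have hs : ∀ i < K0, (h i : ℝ) + w ≤ h (i + 1) := by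
    intro i hi
    have h1 := hup i (by omega)
    have h2 := hlo (i + 1)
    have h3 : (β i + ε) * l' ≤ β (i + 1) * l' := mul_le_mul_of_nonneg_right (hβs i hi) hl'p.le
    nlinarith
  have hsp := spaced hwp.le hs
  have hBl : ε * l' ≤ B * l' := mul_le_mul_of_nonneg_right hBε hl'p.le
  have hW : (h K0 : ℝ) + w ≤ 2 * B * l' := by
    have h1 := hup K0 le_rfl
    nlinarith
  have hmono : ∀ i j : ℕ, i ≤ j → j ≤ K0 → h i ≤ h j := by
    intro i j hij hj
    rcases Nat.lt_or_ge i j with h1 | h1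
    · have h2 := hsp i j h1 hj
      have h3 : (h i : ℝ) ≤ h j := by linarith
      exact_mod_cast h3
    · have : i = j := le_antisymm hij h1
      rw [this]
  have hsm : ∀ i j : ℕ, i < j → j ≤ K0 → h i < h j := by
    intro i j hij hj
    have h2 := hsp i j hij hj
    have h3 : (h i : ℝ) < h j := by linarith
    exact_mod_cast h3
  set H : Finset ℕ := (Finset.range (K0 + 1)).image h with hH
  have hHmem : ∀ m : ℕ, m ∈ H ↔ ∃ i ≤ K0, h i = m := by
    intro m
    rw [hH, Finset.mem_image]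
    constructor
    · rintro ⟨i, hi, rfl⟩
      exact ⟨i, by rw [Finset.mem_range] at hi; omega, rfl⟩
    · rintro ⟨i, hi, rfl⟩
      exact ⟨i, by rw [Finset.mem_range]; omega, rfl⟩
  have hHcard : H.card = K0 + 1 := by
    rw [hH, Finset.card_image_of_injOn, Finset.card_range]
    intro i hi j hj hij
    simp only [Finset.coe_range, Set.mem_Iio] at hi hj
    rcases Nat.lt_trichotomy i j with h1 | h1 | h1
    · have := hsm i j h1 (by omega)
      omega
    · exact h1
    · have := hsm j i h1 (by omega)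
      omega
  have hLc : 2 * B ≤ c0 * Real.log (Real.log (x / 2)) := by
    nlinarith
  have hmain := hA0 (x / 2) hx1 (2 * B) (by positivity) hLc H
    ⟨h 0, (hHmem _).2 ⟨0, Nat.zero_le _, rfl⟩⟩ (le_of_eq hHcard)
    (by
      intro m hm
      obtain ⟨i, hi, rfl⟩ := (hHmem m).1 hm
      have h1 : (h i : ℝ) ≤ h K0 := by exact_mod_cast hmono i K0 hi le_rfl
      have : (h i : ℝ) ≤ 2 * B * l' := by linarith
      exact this)
    (by
      intro m hm m' hm' hmm
      obtain ⟨i, hi, rfl⟩ := (hHmem m).1 hm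
      obtain ⟨j, hj, rfl⟩ := (hHmem m').1 hm'
      have hij : i < j := by
        by_contra hcon
        have := hmono j i (by omega) hi
        omega
      exact hsp i j hij hj)
  -- the exceptional set
  set SS : Set ℕ := {n : ℕ | (n : ℝ) ≤ x / 2 ∧
    (∀ q : ℕ, q.Prime → n < q → (q : ℝ) ≤ n + 2 * B * l' →
      ∃ h ∈ H, n + h < q ∧ (q : ℝ) ≤ n + h + e1 * l') ∧
    c0 * H.card ≤ ((H.filter (fun h => 1 ≤ pc (n + h) (e1 * l'))).card : ℝ)} with hSS
  have hfin : SS.Finite := by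
    refine Set.Finite.subset (Set.finite_Iic ⌊x / 2⌋₊) ?_
    intro n hn
    rw [Set.mem_Iic]
    exact Nat.le_floor hn.1
  set TT : ℕ → ℕ → Set ℕ := fun i j => {n : ℕ | (Nat.nth Nat.Prime (n + 1) : ℝ) ≤ x ∧
      |(Nat.nth Nat.Prime (n + 1) : ℝ) - Nat.nth Nat.Prime n - (β j - β i) * l| ≤ ε * l} with hTT
  have hTfin : ∀ i j, (TT i j).Finite := by
    intro i j
    refine Set.Finite.subset (Set.finite_Iic ⌊x⌋₊) ?_
    intro n hn
    rw [Set.mem_Iic]
    apply Nat.le_floor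
    have h1 : n + 1 ≤ Nat.nth Nat.Prime (n + 1) :=
      (Nat.nth_strictMono Nat.infinite_setOfPred_prime).le_apply
    have h2 : ((n + 1 : ℕ) : ℝ) ≤ Nat.nth Nat.Prime (n + 1) := by exact_mod_cast h1
    push_cast at h2
    have h3 := hn.1
    linarith
  by_contra hcon
  push Not at hcon
  set y : ℝ := x / l * Real.exp (-((|A0| + D) * Real.exp ((2 * |C0| + 1) * B))) with hy
  have hyp : 0 ≤ y := by
    have hxp : 0 ≤ x := by linarith
    have hlp : 0 ≤ l := by linarith
    positivity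
  have key := count_step (S := hfin.toFinset) (K0 := K0) (M := ⌊2 * B * l'⌋₊)
    (T := fun i j => (hTfin i j).toFinset) (y := y) ?_ ?_ hyp
  · rw [Set.ncard_eq_toFinset_card _ hfin] at hmain
    have hM : (⌊2 * B * l'⌋₊ : ℝ) ≤ 2 * B * l := by
      refine (Nat.floor_le (by positivity)).trans ?_
      nlinarith
    have h1 : ((K0 : ℝ) + 1) ^ 2 * (⌊2 * B * l'⌋₊ * y) ≤ ((K0 : ℝ) + 1) ^ 2 * (2 * B * l * y) :=
      mul_le_mul_of_nonneg_left (mul_le_mul_of_nonneg_right hM hyp) (by positivity)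
    have h2 : ((K0 : ℝ) + 1) ^ 2 * (2 * B * l * y)
        = x / 2 * (D * B * Real.exp (-((|A0| + D) * Real.exp ((2 * |C0| + 1) * B)))) := by
      rw [hy, hD]
      have hl0 : l ≠ 0 := by
        intro h0
        rw [h0] at hlx
        norm_num at hlx
      field_simp
      ring
    have h3 := exp_step A0 C0 B D hBp.le hDp.le
    have h4 : x / 2 * (D * B * Real.exp (-((|A0| + D) * Real.exp ((2 * |C0| + 1) * B))))
        < x / 2 * Real.exp (-(A0 * Real.exp (C0 * (2 * B)))) :=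
      mul_lt_mul_of_pos_left h3 (by linarith)
    linarith
  · -- every `n` gives a pair of blocks and an index
    intro n hn
    rw [Set.Finite.mem_toFinset] at hn
    obtain ⟨hn1, hn2, hn3⟩ := hn
    have hcard : 2 ≤ (H.filter (fun h => 1 ≤ pc (n + h) (e1 * l'))).card := by
      have h1 : (2 : ℝ) ≤ ((H.filter (fun h => 1 ≤ pc (n + h) (e1 * l'))).card : ℝ) := by
        refine le_trans ?_ hn3
        rw [hHcard]
        push_cast
        nlinarith
      exact_mod_cast h1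
    have hpr : ∀ m ∈ H.filter (fun h => 1 ≤ pc (n + h) (e1 * l')),
        ∃ i ≤ K0, h i = m ∧ ∃ p : ℕ, p.Prime ∧ n + h i < p ∧ (p : ℝ) ≤ n + h i + w := by
      intro m hm
      rw [Finset.mem_filter] at hm
      obtain ⟨i, hi, him⟩ := (hHmem m).1 hm.1
      refine ⟨i, hi, him, ?_⟩
      have h1 : 0 < pc (n + m) (e1 * l') := hm.2
      rw [pc, Finset.card_pos] at h1
      obtain ⟨p, hp⟩ := h1
      rw [Finset.mem_filter, Finset.mem_Ioc] at hp
      refine ⟨p, hp.2, by rw [him]; exact hp.1.1, ?_⟩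
      have h2 : ((p : ℕ) : ℝ) ≤ ((n + m + ⌊e1 * l'⌋₊ : ℕ) : ℝ) := by exact_mod_cast hp.1.2
      push_cast at h2
      have h3 : (⌊e1 * l'⌋₊ : ℝ) ≤ e1 * l' := Nat.floor_le (by positivity)
      rw [him]
      linarith
    obtain ⟨m1, hm1, m2, hm2, hmne⟩ := Finset.one_lt_card.mp (show 1 < _ from hcard)
    obtain ⟨i1, hi1, hi1m, hp1⟩ := hpr m1 hm1
    obtain ⟨i2, hi2, hi2m, hp2⟩ := hpr m2 hm2
    have hine : i1 ≠ i2 := by
      intro h0
      apply hmne
      rw [← hi1m, ← hi2m, h0]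
    have hP : ∀ q : ℕ, q.Prime → n < q → (q : ℝ) ≤ n + 2 * B * l' →
        ∃ i ≤ K0, n + h i < q ∧ (q : ℝ) ≤ n + h i + w := by
      intro q hq hnq hqW
      obtain ⟨m, hm, h1, h2⟩ := hn2 q hq hnq hqW
      obtain ⟨i, hi, rfl⟩ := (hHmem m).1 hm
      exact ⟨i, hi, h1, h2⟩
    obtain ⟨a, j, s, haj, hj, hs1, hs2, hs3, hs4⟩ : ∃ a j s : ℕ, a < j ∧ j ≤ K0 ∧
        n + h a < Nat.nth Nat.Prime s ∧ (Nat.nth Nat.Prime s : ℝ) ≤ n + h a + w ∧
        n + h j < Nat.nth Nat.Prime (s + 1) ∧ (Nat.nth Nat.Prime (s + 1) : ℝ) ≤ n + h j + w := by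
      rcases Nat.lt_or_gt_of_ne hine with h1 | h1
      · obtain ⟨j, s, hjs⟩ := blk hwp.le hs hW hP h1 hi2 hp1 hp2
        exact ⟨i1, j, s, hjs⟩
      · obtain ⟨j, s, hjs⟩ := blk hwp.le hs hW hP h1 hi1 hp2 hp1
        exact ⟨i2, j, s, hjs⟩
    have ha : a ≤ K0 := by omega
    have hs1' : ((n + h a : ℕ) : ℝ) < Nat.nth Nat.Prime s := by exact_mod_cast hs1
    have hs3' : ((n + h j : ℕ) : ℝ) < Nat.nth Nat.Prime (s + 1) := by exact_mod_cast hs3
    push_cast at hs1' hs3'
    have hjK : (h j : ℝ) ≤ h K0 := by exact_mod_cast hmono j K0 hj le_rfl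
    have haK : (h a : ℝ) ≤ h K0 := by exact_mod_cast hmono a K0 ha le_rfl
    have hBl' : 2 * B * l' ≤ x / 2 := by
      have h1 : B * l' ≤ c0 / 4 * Real.log l * l := by
        have h2 : B * l' ≤ B * l := mul_le_mul_of_nonneg_left hl'l hBp.le
        have h3 : B * l ≤ c0 / 4 * Real.log l * l := mul_le_mul_of_nonneg_right hβc (by linarith)
        linarith
      nlinarith
    refine ⟨a, j, s, haj, hj, ?_, ?_, ?_⟩
    · rw [Set.Finite.mem_toFinset]
      refine ⟨by linarith, ?_⟩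
      have u1 := hup j hj
      have u2 := hup a ha
      have v1 := hlo j
      have v2 := hlo a
      have hba : 0 ≤ β j - β a := by
        have := hβm a j haj hj
        linarith
      have hbB : β j - β a ≤ B := by
        have h1 := hβB j hj
        have h2 := hβp a ha
        linarith
      have hlogl : 0 ≤ Real.log l := Real.log_nonneg (by linarith)
      have hB2 : B * Real.log 2 ≤ e1 * l := by
        have h1 : B * Real.log 2 ≤ B := by nlinarith
        have h2 : B ≤ c0 * Real.log l := by nlinarith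
        linarith
      have hwl : w ≤ e1 * l := by rw [hw]; nlinarith
      have h1w : 1 ≤ e1 * l := by rw [hw] at hwl; linarith
      have hel' : 4 * (e1 * l) ≤ ε * l := by nlinarith
      have hd1 : (β j - β a) * l' ≤ (β j - β a) * l := mul_le_mul_of_nonneg_left hl'l hba
      have hd2 : (β j - β a) * l - B * Real.log 2 ≤ (β j - β a) * l' := by
        rw [hll']
        have : (β j - β a) * Real.log 2 ≤ B * Real.log 2 :=
          mul_le_mul_of_nonneg_right hbB hlog2'
        linarith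
      rw [abs_le]
      constructor
      · have : (Nat.nth Nat.Prime (s + 1) : ℝ) - Nat.nth Nat.Prime s
            ≥ (β j - β a) * l' - 1 - w := by linarith
        linarith
      · have : (Nat.nth Nat.Prime (s + 1) : ℝ) - Nat.nth Nat.Prime s
            ≤ (β j - β a) * l' + 1 + w := by linarith
        linarith
    · omega
    · have h1 : (Nat.nth Nat.Prime s : ℝ) - n ≤ 2 * B * l' := by linarith
      have h2 : n ≤ Nat.nth Nat.Prime s := by omega
      have h3 : Nat.nth Nat.Prime s - n ≤ ⌊2 * B * l'⌋₊ := by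
        apply Nat.le_floor
        rw [Nat.cast_sub h2]
        exact h1
      omega
  · intro i j hij hj
    have h1 := hcon i j hij hj
    rw [Set.ncard_eq_toFinset_card _ (hTfin i j)] at h1
    exact h1.le

end Pool.Agent.Helper62.PX
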